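import Pool.Agent.U954.TA.Half
import Pool.Agent.U954.TA.Top
import Pool.Agent.N929.EZ.Poly

/-!
# Self-avoiding polygons with a root, rooted at the origin or at their highest site
-/

set_option autoImplicit false
set_option linter.unusedVariables false

namespace Pool.Agent.U954.PG

open Pool.Agent.H976R2 Pool.Agent.U954.TA
open scoped Classical

/-- rooted oriented self-avoiding closed loops -/
def IsLoop (m : ℕ) (f : ZMod m → ℤ × ℤ) : Prop :=
  f 0 = (0, 0) ∧ Function.Injective f ∧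
    ∀ i : ZMod m, |(f (i + 1)).1 - (f i).1| + |(f (i + 1)).2 - (f i).2| = 1

/-- highest at time `t` -/
def IsTop {α : Type} [LinearOrder α] {m : ℕ} (φ : ℤ × ℤ → α) (f : ZMod m → ℤ × ℤ) (t : ℕ) : Prop :=
  ∀ u : ZMod m, φ (f u) ≤ φ (f (t : ZMod m))

/-- the loops, with the condition on the root -/
def Loops {α : Type} [LinearOrder α] (ρ : Option (ℤ × ℤ → α)) (N : ℕ) :
    Set (ZMod (2 * N) → ℤ × ℤ) :=
  {f | IsLoop (2 * N) f ∧ ∀ φ, ρ = some φ → IsTop φ f 0}

theorem loop_sum {N : ℕ} (hN : 2 ≤ N) (F : (ZMod (2 * N) → ℤ × ℤ) → ℝ) :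
    ∑ᶠ f ∈ {f : ZMod (2 * N) → ℤ × ℤ | IsLoop (2 * N) f}, F f =
      ∑ w ∈ Pool.Agent.H739K.KP (2 * N - 1), F (Pool.Agent.H739K.lp (2 * N) w) :=
  (Pool.Agent.H739K.CONV_proof N hN).1 F

theorem loop_card {N : ℕ} (hN : 2 ≤ N) :
    {f : ZMod (2 * N) → ℤ × ℤ | IsLoop (2 * N) f}.ncard =
      (Pool.Agent.H739K.KP (2 * N - 1)).card :=
  (Pool.Agent.H739K.CONV_proof N hN).2.1

theorem KP_pos {N : ℕ} (hN : 2 ≤ N) : 0 < (Pool.Agent.H739K.KP (2 * N - 1)).card := by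
  obtain ⟨K, hK, h⟩ := Pool.Agent.N929.EZ.KP_low
  have h1 := h (2 * N - 1) (by omega) (by omega)
  have h2 := card_pos' (2 * N - 1)
  by_contra hcon
  have h3 : (Pool.Agent.H739K.KP (2 * N - 1)).card = 0 := by omega
  rw [h3] at h1
  simp only [Nat.cast_zero, mul_zero] at h1
  linarith

theorem loop_fin {N : ℕ} (hN : 2 ≤ N) :
    {f : ZMod (2 * N) → ℤ × ℤ | IsLoop (2 * N) f}.Finite := by
  refine Set.finite_of_ncard_pos ?_
  rw [loop_card hN]
  exact KP_pos hN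

/-- the change of the root -/
def rot {m : ℕ} (i : ZMod m) (f : ZMod m → ℤ × ℤ) : ZMod m → ℤ × ℤ := fun j => f (j + i) - f i

theorem rot_loop {m : ℕ} (i : ZMod m) {f : ZMod m → ℤ × ℤ} (h : IsLoop m f) :
    IsLoop m (rot i f) := by
  obtain ⟨h0, h1, h2⟩ := h
  refine ⟨?_, ?_, ?_⟩
  · unfold rot
    rw [zero_add, sub_self]
    rfl
  · intro a b hab
    unfold rot at hab
    have h3 := h1 (sub_left_inj.mp hab)
    exact add_right_cancel h3
  · intro j
    unfold rot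
    have h3 := h2 (j + i)
    rw [show j + 1 + i = j + i + 1 by ring]
    simp only [Prod.fst_sub, Prod.snd_sub, sub_sub_sub_cancel_right]
    exact h3

theorem rot_rot {m : ℕ} (i : ZMod m) {f : ZMod m → ℤ × ℤ} (h : IsLoop m f) :
    rot (-i) (rot i f) = f := by
  have h0 : f 0 = 0 := h.1
  funext j
  unfold rot
  rw [neg_add_cancel_right, neg_add_cancel, h0]
  abel

theorem rot_top {α : Type} [LinearOrder α] {φ : ℤ × ℤ → α}
    (hc : ∀ x y z, φ x ≤ φ y → φ (x + z) ≤ φ (y + z)) {m : ℕ} (i k : ZMod m)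
    {f : ZMod m → ℤ × ℤ} (h : ∀ u, φ (f u) ≤ φ (f (k + i))) : ∀ u, φ (rot i f u) ≤ φ (rot i f k) := by
  intro u
  unfold rot
  rw [sub_eq_add_neg, sub_eq_add_neg]
  exact hc _ _ _ (h _)

/-- the number of the loops and the number of the loops rooted at their highest site -/
theorem rot_card {α : Type} [LinearOrder α] {φ : ℤ × ℤ → α} (hφ : Function.Injective φ)
    (hc : ∀ x y z, φ x ≤ φ y → φ (x + z) ≤ φ (y + z)) {N : ℕ} (hN : 2 ≤ N) :
    {f : ZMod (2 * N) → ℤ × ℤ | IsLoop (2 * N) f}.ncard = 2 * N * (Loops (some φ) N).ncard := by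
  have : NeZero (2 * N) := ⟨by omega⟩
  obtain ⟨S, hS⟩ : ∃ S : Finset (ZMod (2 * N) → ℤ × ℤ), ∀ f, f ∈ S ↔ IsLoop (2 * N) f :=
    ⟨(loop_fin hN).toFinset, fun f => by simp⟩
  have e1 : {f : ZMod (2 * N) → ℤ × ℤ | IsLoop (2 * N) f}.ncard = S.card := by
    rw [← Set.ncard_coe_finset]
    congr 1
    ext f
    simp [hS]
  have e2 : (Loops (some φ) N).ncard =
      (S.filter (fun f => ∀ u, φ (f u) ≤ φ (f 0))).card := by
    rw [← Set.ncard_coe_finset]
    congr 1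
    ext f
    simp only [Loops, IsTop, Set.mem_ofPred_eq, Option.some.injEq, forall_eq', Nat.cast_zero,
      Finset.coe_filter, hS]
  have e3 : S.card = ∑ i : ZMod (2 * N), (S.filter (fun f => ∀ u, φ (f u) ≤ φ (f i))).card := by
    have h1 : ∀ f ∈ S, ∑ i : ZMod (2 * N), (if ∀ u, φ (f u) ≤ φ (f i) then 1 else 0) = 1 := by
      intro f hf
      obtain ⟨i, -, hi⟩ := Finset.exists_max_image (Finset.univ : Finset (ZMod (2 * N)))
        (fun u => φ (f u)) ⟨0, Finset.mem_univ _⟩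
      rw [Finset.sum_eq_single i]
      · rw [if_pos (fun u => hi u (Finset.mem_univ _))]
      · intro j _ hj
        rw [if_neg]
        intro hcon
        exact hj (((hS f).mp hf).2.1 (hφ (le_antisymm (hi j (Finset.mem_univ _)) (hcon i))))
      · intro h
        exact absurd (Finset.mem_univ _) h
    rw [Finset.card_eq_sum_ones, ← Finset.sum_congr rfl h1, Finset.sum_comm]
    refine Finset.sum_congr rfl fun i _ => ?_
    rw [Finset.card_filter]
  have e4 : ∀ i : ZMod (2 * N), (S.filter (fun f => ∀ u, φ (f u) ≤ φ (f i))).card =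
      (S.filter (fun f => ∀ u, φ (f u) ≤ φ (f 0))).card := by
    intro i
    refine Finset.card_nbij' (rot i) (rot (-i)) ?_ ?_ ?_ ?_
    · intro f hf
      rw [Finset.mem_coe, Finset.mem_filter, hS] at hf ⊢
      exact ⟨rot_loop i hf.1, rot_top hc i 0 (by rw [zero_add]; exact hf.2)⟩
    · intro f hf
      rw [Finset.mem_coe, Finset.mem_filter, hS] at hf ⊢
      exact ⟨rot_loop (-i) hf.1, rot_top hc (-i) i (by rw [add_neg_cancel]; exact hf.2)⟩
    · intro f hf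
      rw [Finset.mem_coe, Finset.mem_filter, hS] at hf
      exact rot_rot i hf.1
    · intro f hf
      rw [Finset.mem_coe, Finset.mem_filter, hS] at hf
      have := rot_rot (-i) hf.1
      rwa [neg_neg] at this
  rw [e1, e3, e2, Finset.sum_congr rfl (fun i _ => e4 i), Finset.sum_const, smul_eq_mul,
    Finset.card_univ, ZMod.card]

/-- the conditions on the ranking for the root -/
def Good {α : Type} [LinearOrder α] (ρ : Option (ℤ × ℤ → α)) : Prop :=
  ∀ φ, ρ = some φ → Function.Injective φ ∧ ∀ x y z, φ x ≤ φ y → φ (x + z) ≤ φ (y + z)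

theorem log_le {N : ℕ} (hN : 2 ≤ N) : 0.69 ≤ Real.log N ∧ Real.log N ≤ Real.log (2 * N - 1 : ℕ) ∧
    Real.log (2 * N - 1 : ℕ) ≤ 2 * Real.log N := by
  have hN' : (2 : ℝ) ≤ N := by exact_mod_cast hN
  have e : ((2 * N - 1 : ℕ) : ℝ) = 2 * N - 1 := by
    rw [Nat.cast_sub (by omega)]
    push_cast
    ring
  refine ⟨?_, ?_, ?_⟩
  · have h1 : Real.log 2 ≤ Real.log N := Real.log_le_log (by norm_num) hN'
    have := Real.log_two_gt_d9
    linarith
  · rw [e]
    exact Real.log_le_log (by linarith) (by linarith)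
  · rw [e, two_mul (Real.log N), ← Real.log_mul (by linarith) (by linarith)]
    refine Real.log_le_log (by linarith) ?_
    nlinarith

/-- the lower bound for the number of loops -/
theorem low : ∃ K : ℝ, 0 ≤ K ∧ ∀ (α : Type) (_ : LinearOrder α) (ρ : Option (ℤ × ℤ → α)),
    Good ρ → ∀ N : ℕ, 2 ≤ N → ((SW (2 * N - 1)).card : ℝ) ≤
      Real.exp (K * Real.log N ^ 2) * ((Loops ρ N).ncard : ℝ) := by
  obtain ⟨K, hK, h⟩ := Pool.Agent.N929.EZ.KP_low
  refine ⟨4 * K + 4, by positivity, fun α _ ρ hρ N hN => ?_⟩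
  obtain ⟨l1, l2, l3⟩ := log_le hN
  have h1 := h (2 * N - 1) (by omega) (by omega)
  rw [← loop_card hN] at h1
  have hN' : (2 : ℝ) ≤ N := by exact_mod_cast hN
  have h2 : Real.log (2 * N - 1 : ℕ) ^ 2 ≤ 4 * Real.log N ^ 2 := by nlinarith
  have h3 : ({f : ZMod (2 * N) → ℤ × ℤ | IsLoop (2 * N) f}.ncard : ℝ) ≤
      2 * N * ((Loops ρ N).ncard : ℝ) := by
    rcases hc : ρ with _ | φ
    · have e : Loops (none : Option (ℤ × ℤ → α)) N =
          {f : ZMod (2 * N) → ℤ × ℤ | IsLoop (2 * N) f} := by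
        ext f
        simp [Loops]
      rw [e]
      have : (0 : ℝ) ≤ ({f : ZMod (2 * N) → ℤ × ℤ | IsLoop (2 * N) f}.ncard : ℝ) :=
        Nat.cast_nonneg _
      nlinarith
    · obtain ⟨g1, g2⟩ := hρ φ hc
      have := rot_card g1 g2 hN
      rw [this]
      push_cast
      exact le_rfl
  have h4 : 2 * (N : ℝ) ≤ Real.exp (4 * Real.log N ^ 2) := by
    have h5 : 2 * Real.log N ≤ 4 * Real.log N ^ 2 := by nlinarith
    calc 2 * (N : ℝ) ≤ (N : ℝ) ^ 2 := by nlinarith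
      _ = Real.exp (2 * Real.log N) := by
          rw [two_mul, Real.exp_add, Real.exp_log (by linarith)]
          ring
      _ ≤ _ := Real.exp_le_exp.mpr h5
  calc ((SW (2 * N - 1)).card : ℝ) ≤ _ := h1
    _ ≤ Real.exp (K * (4 * Real.log N ^ 2)) *
        (Real.exp (4 * Real.log N ^ 2) * ((Loops ρ N).ncard : ℝ)) := by
        refine mul_le_mul (Real.exp_le_exp.mpr (mul_le_mul_of_nonneg_left h2 hK)) ?_
          (Nat.cast_nonneg _) (Real.exp_pos _).le
        exact h3.trans (mul_le_mul_of_nonneg_right h4 (Nat.cast_nonneg _))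
    _ = _ := by
        rw [← mul_assoc, ← Real.exp_add]
        congr 2
        ring

theorem Loops_pos {α : Type} [LinearOrder α] {ρ : Option (ℤ × ℤ → α)} (hρ : Good ρ) {N : ℕ}
    (hN : 2 ≤ N) : (0 : ℝ) < ((Loops ρ N).ncard : ℝ) := by
  obtain ⟨K, hK, h⟩ := low
  have h1 := h α inferInstance ρ hρ N hN
  have h2 := card_pos' (2 * N - 1)
  have h3 : 0 < Real.exp (K * Real.log N ^ 2) * ((Loops ρ N).ncard : ℝ) := lt_of_lt_of_le h2 h1
  exact pos_of_mul_pos_right h3 (Real.exp_pos _).le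

/-- sums over the loops -/
theorem Loops_sum {α : Type} [LinearOrder α] (ρ : Option (ℤ × ℤ → α)) {N : ℕ} (hN : 2 ≤ N)
    (F : (ZMod (2 * N) → ℤ × ℤ) → ℝ) :
    ∑ᶠ f ∈ Loops ρ N, F f = ∑ w ∈ SW (2 * N - 1),
      if sq w = 1 ∧ ∀ φ, ρ = some φ → IsTop φ (Pool.Agent.H739K.lp (2 * N) w) 0 then
        F (Pool.Agent.H739K.lp (2 * N) w) else 0 := by
  have h1 : ∑ᶠ f ∈ Loops ρ N, F f =
      ∑ᶠ f ∈ {f : ZMod (2 * N) → ℤ × ℤ | IsLoop (2 * N) f},
        (if ∀ φ, ρ = some φ → IsTop φ f 0 then F f else 0) := by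
    refine finsum_congr fun f => ?_
    by_cases h : IsLoop (2 * N) f
    · have h2 : f ∈ {f : ZMod (2 * N) → ℤ × ℤ | IsLoop (2 * N) f} := h
      rw [finsum_eq_if, finsum_eq_if, if_pos h2]
      by_cases h3 : ∀ φ, ρ = some φ → IsTop φ f 0
      · rw [if_pos h3, if_pos (show f ∈ Loops ρ N from ⟨h, h3⟩)]
      · rw [if_neg h3, if_neg (fun hc : f ∈ Loops ρ N => h3 hc.2)]
    · rw [finsum_eq_if, finsum_eq_if,
        if_neg (show f ∉ {f : ZMod (2 * N) → ℤ × ℤ | IsLoop (2 * N) f} from h),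
        if_neg (fun hc : f ∈ Loops ρ N => h hc.1)]
  rw [h1, loop_sum hN]
  unfold Pool.Agent.H739K.KP
  rw [Finset.sum_filter]
  refine Finset.sum_congr rfl fun w _ => ?_
  by_cases h2 : sq w = 1
  · by_cases h3 : ∀ φ, ρ = some φ → IsTop φ (Pool.Agent.H739K.lp (2 * N) w) 0
    · rw [if_pos h2, if_pos h3, if_pos ⟨h2, h3⟩]
    · rw [if_pos h2, if_neg h3, if_neg (fun hc => h3 hc.2)]
  · rw [if_neg h2, if_neg (fun hc => h2 hc.1)]

theorem lp_at {N : ℕ} (w : List Dir) (t : ℕ) (ht : t ≤ 2 * N - 1) (hN : 2 ≤ N) :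
    Pool.Agent.H739K.lp (2 * N) w (t : ZMod (2 * N)) = Lip.PP w t := by
  have : NeZero (2 * N) := ⟨by omega⟩
  unfold Pool.Agent.H739K.lp Lip.PP
  rw [ZMod.val_natCast, Nat.mod_eq_of_lt (by omega)]

theorem lp_ex {N : ℕ} (hN : 2 ≤ N) (u : ZMod (2 * N)) :
    ∃ t : ℕ, t ≤ 2 * N - 1 ∧ (t : ZMod (2 * N)) = u := by
  have : NeZero (2 * N) := ⟨by omega⟩
  exact ⟨u.val, by have := ZMod.val_lt u; omega, ZMod.natCast_zmod_val u⟩

theorem top_iff {α : Type} [LinearOrder α] (φ : ℤ × ℤ → α) {N t : ℕ} (hN : 2 ≤ N)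
    (ht : t ≤ 2 * N - 1) (w : List Dir) :
    IsTop φ (Pool.Agent.H739K.lp (2 * N) w) t ↔ Tp φ (2 * N - 1) w t := by
  unfold IsTop Tp
  rw [lp_at w t ht hN]
  constructor
  · intro h
    refine ⟨ht, fun u hu => ?_⟩
    have := h (u : ZMod (2 * N))
    rwa [lp_at w u hu hN] at this
  · rintro ⟨-, h⟩ u
    obtain ⟨v, hv, rfl⟩ := lp_ex hN u
    rw [lp_at w v hv hN]
    exact h v hv

end Pool.Agent.U954.PG
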