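import Pool.Agent.U954.PG.Gen

/-!
# Self-avoiding polygons with a root: moments and times
-/

set_option autoImplicit false
set_option linter.unusedVariables false

namespace Pool.Agent.U954.PG

open Pool.Agent.H976R2 Pool.Agent.U954.TA
open scoped Classical

/-- the words of the loops in `Loops` -/
noncomputable def LW {α : Type} [LinearOrder α] (ρ : Option (ℤ × ℤ → α)) (N : ℕ) :
    Finset (List Dir) :=
  (SW (2 * N - 1)).filter (fun w => sq w = 1 ∧
    ∀ φ, ρ = some φ → IsTop φ (Pool.Agent.H739K.lp (2 * N) w) 0)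

theorem mean_eq' {α : Type} [LinearOrder α] (ρ : Option (ℤ × ℤ → α)) {N : ℕ} (hN : 2 ≤ N)
    (F : (ZMod (2 * N) → ℤ × ℤ) → ℝ) :
    mean ρ N F = (∑ w ∈ LW ρ N, F (Pool.Agent.H739K.lp (2 * N) w)) / ((LW ρ N).card : ℝ) := by
  have e1 : ∀ F : (ZMod (2 * N) → ℤ × ℤ) → ℝ, ∑ᶠ f ∈ Loops ρ N, F f =
      ∑ w ∈ LW ρ N, F (Pool.Agent.H739K.lp (2 * N) w) := by
    intro F
    rw [Loops_sum ρ hN]
    unfold LW
    rw [Finset.sum_filter]
  have hfin : (Loops ρ N).Finite := (loop_fin hN).subset fun f hf => hf.1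
  have e2 : ((Loops ρ N).ncard : ℝ) = ((LW ρ N).card : ℝ) := by
    have h1 := e1 (fun _ => 1)
    rw [Finset.sum_const, nsmul_eq_mul, mul_one] at h1
    rw [← h1, finsum_mem_eq_finite_toFinset_sum _ hfin, Finset.sum_const, nsmul_eq_mul, mul_one,
      ← Set.ncard_eq_toFinset_card _ hfin]
  unfold mean
  rw [e1, e2]

theorem LW_pos {α : Type} [LinearOrder α] {ρ : Option (ℤ × ℤ → α)} (hρ : Good ρ) {N : ℕ}
    (hN : 2 ≤ N) : (0 : ℝ) < ((LW ρ N).card : ℝ) := by
  by_contra hcon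
  have h1 : (LW ρ N).card = 0 := by
    by_contra h2
    exact hcon (by exact_mod_cast Nat.pos_of_ne_zero h2)
  have h2 := mean_eq' ρ hN (fun _ => 1)
  rw [Finset.card_eq_zero.mp h1] at h2
  simp only [Finset.sum_empty, zero_div] at h2
  unfold mean at h2
  have hfin : (Loops ρ N).Finite := (loop_fin hN).subset fun f hf => hf.1
  have h3 := Loops_pos hρ hN
  rw [finsum_mem_eq_finite_toFinset_sum _ hfin, Finset.sum_const, nsmul_eq_mul, mul_one,
    ← Set.ncard_eq_toFinset_card _ hfin, div_self h3.ne'] at h2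
  exact one_ne_zero h2

theorem LW_sub {α : Type} [LinearOrder α] {ρ : Option (ℤ × ℤ → α)} {N : ℕ} {w : List Dir}
    (hw : w ∈ LW ρ N) : w ∈ SW (2 * N - 1) := (Finset.mem_filter.mp hw).1

/-- positive quantities which are not too large and not too small -/
theorem mom (κ : ℝ) (hκ : 0 ≤ κ) (r : ℕ) (hr : 1 ≤ r) : ∃ C : ℝ, 0 < C ∧ ∀ (α : Type)
    (_ : LinearOrder α) (ρ : Option (ℤ × ℤ → α)), Good ρ → ∀ (N a m b q g : ℕ)
    (Y : ℕ → (ZMod (2 * N) → ℤ × ℤ) → ℝ)
    (X : (Fin (a + 1) → ℤ × ℤ) × (Fin (m + 1) → ℤ × ℤ) × (Fin (b + 1) → ℤ × ℤ) → ℝ), 2 ≤ N →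
    a + g ≤ q → q + m + g + b < 2 * N → C * Real.log N ^ 2 ≤ g →
    (2 * r + 1 ≤ g → ∀ i, i ≤ r → ∀ w ∈ LW ρ N,
      Y i (Pool.Agent.H739K.lp (2 * N) w) =
        X (parts a m b (q + 2 * i) (Pool.Agent.H739K.lp (2 * N) w)) ∧
      Y i (Pool.Agent.H739K.lp (2 * N) w) ≤ Real.exp (κ * Real.log N) ∧
      Real.exp (-(κ * Real.log N)) ≤ Y i (Pool.Agent.H739K.lp (2 * N) w)) →
    |df r (fun i => Real.log (mean ρ N (Y i)))| ≤ C * (Real.log N / Real.sqrt g) ^ r := by
  obtain ⟨C, hC, h⟩ := general 0 r hr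
  obtain ⟨c, hc⟩ : ∃ c : ℝ, c = 1 + 4 * κ := ⟨_, rfl⟩
  have hc1 : 1 ≤ c := by rw [hc]; linarith
  refine ⟨C * c + C * Real.sqrt c ^ r + 5 * (r + 1), by positivity,
    fun α _ ρ hρ N a m b q g Y X hn haq hqn hg hY => ?_⟩
  obtain ⟨hlog0, -, -⟩ := log_le hn
  have hl2 : Real.log N ≤ 2 * Real.log N ^ 2 := by nlinarith
  have hlsq : 0.47 ≤ Real.log N ^ 2 := by nlinarith
  have hr0 : (0 : ℝ) ≤ r := Nat.cast_nonneg r
  have hCs : 0 ≤ C * Real.sqrt c ^ r := by positivity
  have hCc : 0 ≤ C * c := by positivity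
  have hgr : 2 * r + 1 ≤ g := by
    have h1 : 5 * ((r : ℝ) + 1) * 0.47 ≤ 5 * ((r : ℝ) + 1) * Real.log N ^ 2 :=
      mul_le_mul_of_nonneg_left hlsq (by positivity)
    have h2 : 5 * ((r : ℝ) + 1) * Real.log N ^ 2 ≤
        (C * c + C * Real.sqrt c ^ r + 5 * (r + 1)) * Real.log N ^ 2 :=
      mul_le_mul_of_nonneg_right (by linarith) (by linarith)
    have h3 : 2 * (r : ℝ) + 1 ≤ g := by linarith
    exact_mod_cast h3
  have hY' := hY hgr
  have hh := LW_pos hρ hn
  obtain ⟨M, hM⟩ : ∃ M : ℝ, M = Real.exp (κ * Real.log N) := ⟨_, rfl⟩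
  have hM0 : 0 < M := by rw [hM]; exact Real.exp_pos _
  obtain ⟨Φ, hΦ⟩ : ∃ Φ : (Fin (a + 1) → ℤ × ℤ) × (Fin (m + 1) → ℤ × ℤ) ×
      (Fin (b + 1) → ℤ × ℤ) → ℝ, ∀ x, Φ x = min 1 (max 0 (X x / M)) := ⟨_, fun _ => rfl⟩
  have hΦ01 : ∀ x, 0 ≤ Φ x ∧ Φ x ≤ 1 := fun x => by
    rw [hΦ]
    exact ⟨le_min zero_le_one (le_max_left _ _), min_le_left _ _⟩
  obtain ⟨φ, hφ⟩ : ∃ φ : Fin 0 → ℤ × ℤ → α, True := ⟨fun i => i.elim0, trivial⟩
  have hmi : ∀ i, i ≤ r → topMean ρ φ N a m b (q + 2 * i) Φ = mean ρ N (Y i) / M ∧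
      Real.exp (-(2 * κ * Real.log N)) ≤ mean ρ N (Y i) / M := by
    intro i hi
    have e1 : ∀ w ∈ LW ρ N,
        Φ (parts a m b (q + 2 * i) (Pool.Agent.H739K.lp (2 * N) w)) =
          Y i (Pool.Agent.H739K.lp (2 * N) w) / M ∧
        Real.exp (-(2 * κ * Real.log N)) ≤ Y i (Pool.Agent.H739K.lp (2 * N) w) / M := by
      intro w hw
      obtain ⟨b1, b2, b3⟩ := hY' i hi w hw
      have b4 : 0 < Y i (Pool.Agent.H739K.lp (2 * N) w) := lt_of_lt_of_le (Real.exp_pos _) b3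
      constructor
      · rw [hΦ, ← b1, max_eq_right (by positivity), min_eq_right]
        rw [div_le_one hM0, hM]
        exact b2
      · rw [le_div_iff₀ hM0, hM, ← Real.exp_add]
        refine le_trans (le_of_eq ?_) b3
        congr 1
        ring
    constructor
    · unfold topMean
      rw [mean_eq' ρ hn, mean_eq' ρ hn]
      have e8 : (∑ w ∈ LW ρ N, Y i (Pool.Agent.H739K.lp (2 * N) w)) / ((LW ρ N).card : ℝ) / M =
          (∑ w ∈ LW ρ N, Y i (Pool.Agent.H739K.lp (2 * N) w) / M) / ((LW ρ N).card : ℝ) := by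
        rw [div_right_comm, Finset.sum_div]
      rw [e8]
      refine congrArg (· / ((LW ρ N).card : ℝ)) ?_
      refine Finset.sum_congr rfl fun w hw => ?_
      rw [if_pos (show TopsIn φ a m b (q + 2 * i) (Pool.Agent.H739K.lp (2 * N) w) from
        fun j => j.elim0)]
      exact (e1 w hw).1
    · rw [mean_eq' ρ hn, div_right_comm, Finset.sum_div, le_div_iff₀ hh]
      have e9 : Real.exp (-(2 * κ * Real.log N)) * ((LW ρ N).card : ℝ) =
          ∑ _w ∈ LW ρ N, Real.exp (-(2 * κ * Real.log N)) := by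
        rw [Finset.sum_const, nsmul_eq_mul]
        ring
      rw [e9]
      exact Finset.sum_le_sum fun w hw => (e1 w hw).2
  have h1 := h α inferInstance ρ hρ φ (fun j => j.elim0) N a m b q g Φ (2 * κ * Real.log N) hn
    hΦ01 (by positivity)
    (by
      have := hmi 0 (by omega)
      simp only [Nat.mul_zero, Nat.add_zero] at this
      rw [this.1]
      exact this.2) haq hqn
    (by
      refine le_trans ?_ hg
      have h5 : 2 * κ * Real.log N ≤ 2 * κ * (2 * Real.log N ^ 2) :=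
        mul_le_mul_of_nonneg_left hl2 (by positivity)
      calc C * (Real.log N ^ 2 + 2 * κ * Real.log N)
          ≤ C * (Real.log N ^ 2 + 2 * κ * (2 * Real.log N ^ 2)) :=
            mul_le_mul_of_nonneg_left (by linarith) hC.le
        _ = C * c * Real.log N ^ 2 := by rw [hc]; ring
        _ ≤ _ := mul_le_mul_of_nonneg_right (by linarith) (sq_nonneg _))
  obtain ⟨-, h2, h3⟩ := h1
  have e4 : df r (fun i => Real.log (mean ρ N (Y i))) =
      df r (fun i => Real.log (topMean ρ φ N a m b (q + 2 * i) Φ)) := by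
    rw [← df_const r hr (fun i => Real.log (topMean ρ φ N a m b (q + 2 * i) Φ)) (Real.log M)]
    unfold df
    refine Finset.sum_congr rfl fun i hi => ?_
    rw [Finset.mem_range] at hi
    have hp := h2 i (by omega)
    rw [(hmi i (by omega)).1] at hp
    have hp' : 0 < mean ρ N (Y i) := by
      have := mul_pos hp hM0
      rwa [div_mul_cancel₀ _ hM0.ne'] at this
    simp only
    rw [(hmi i (by omega)).1, Real.log_div hp'.ne' hM0.ne']
    ring
  rw [e4]
  refine h3.trans ?_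
  have hg0 : (0 : ℝ) < g := by
    have : 0 < (C * c + C * Real.sqrt c ^ r + 5 * (r + 1)) * Real.log N ^ 2 := by positivity
    linarith
  have e5 : Real.sqrt ((Real.log N ^ 2 + 2 * κ * Real.log N) / g) ≤
      Real.sqrt c * (Real.log N / Real.sqrt g) := by
    have e6 : Real.log N / Real.sqrt g = Real.sqrt (Real.log N ^ 2 / g) := by
      rw [Real.sqrt_div (sq_nonneg _), Real.sqrt_sq (by linarith)]
    rw [e6, ← Real.sqrt_mul (by linarith)]
    apply Real.sqrt_le_sqrt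
    rw [← mul_div_assoc]
    refine div_le_div_of_nonneg_right ?_ hg0.le
    have h5 : 2 * κ * Real.log N ≤ 2 * κ * (2 * Real.log N ^ 2) :=
      mul_le_mul_of_nonneg_left hl2 (by positivity)
    rw [hc]
    linarith
  calc C * Real.sqrt ((Real.log N ^ 2 + 2 * κ * Real.log N) / g) ^ r
      ≤ C * (Real.sqrt c * (Real.log N / Real.sqrt g)) ^ r := by gcongr
    _ = C * Real.sqrt c ^ r * (Real.log N / Real.sqrt g) ^ r := by rw [mul_pow]; ring
    _ ≤ _ := mul_le_mul_of_nonneg_right (by linarith) (by positivity)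

/-- the probability -/
noncomputable def prob {α : Type} [LinearOrder α] (ρ : Option (ℤ × ℤ → α)) (N : ℕ)
    (E : (ZMod (2 * N) → ℤ × ℤ) → Prop) : ℝ := mean ρ N (fun f => if E f then 1 else 0)

theorem prob_nonneg {α : Type} [LinearOrder α] (ρ : Option (ℤ × ℤ → α)) {N : ℕ} (hN : 2 ≤ N)
    (E : (ZMod (2 * N) → ℤ × ℤ) → Prop) : 0 ≤ prob ρ N E := by
  unfold prob
  rw [mean_eq' ρ hN]
  refine div_nonneg (Finset.sum_nonneg fun w _ => ?_) (Nat.cast_nonneg _)
  split_ifs <;> norm_num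

/-- the middle piece is at the highest site among the three pieces -/
def Mid {α : Type} [LinearOrder α] (ψ : ℤ × ℤ → α)
    (x : (Fin (0 + 1) → ℤ × ℤ) × (Fin (0 + 1) → ℤ × ℤ) × (Fin (0 + 1) → ℤ × ℤ)) : Prop :=
  ψ (x.1 0) ≤ ψ (x.2.1 0) ∧ ψ (x.2.2 0) ≤ ψ (x.2.1 0)

theorem one_eq {α : Type} [LinearOrder α] (ρ : Option (ℤ × ℤ → α)) (ψ : ℤ × ℤ → α) {N t : ℕ}
    (hN : 2 ≤ N) (ht : t ≤ 2 * N - 1) :
    topMean (k := 1) ρ (fun _ => ψ) N 0 0 0 t (fun x => if Mid ψ x then 1 else 0) =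
      prob ρ N (fun f => IsTop ψ f t) := by
  unfold topMean prob
  rw [mean_eq' ρ hN, mean_eq' ρ hN]
  refine congrArg (· / ((LW ρ N).card : ℝ)) ?_
  refine Finset.sum_congr rfl fun w hw => ?_
  have e0 : Pool.Agent.H739K.lp (2 * N) w ((0 : ℕ) : ZMod (2 * N)) = Lip.PP w 0 :=
    lp_at w 0 (by omega) hN
  have et : Pool.Agent.H739K.lp (2 * N) w (t : ZMod (2 * N)) = Lip.PP w t := lp_at w t ht hN
  have en : Pool.Agent.H739K.lp (2 * N) w ((2 * N - 1 : ℕ) : ZMod (2 * N)) =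
      Lip.PP w (2 * N - 1) := lp_at w _ le_rfl hN
  have hM : Mid ψ (parts 0 0 0 t (Pool.Agent.H739K.lp (2 * N) w)) ↔
      ψ (Lip.PP w 0) ≤ ψ (Lip.PP w t) ∧ ψ (Lip.PP w (2 * N - 1)) ≤ ψ (Lip.PP w t) := by
    unfold Mid parts arc
    simp only [Fin.val_zero, Nat.add_zero, Nat.sub_zero]
    rw [e0, et, en]
  by_cases h1 : IsTop ψ (Pool.Agent.H739K.lp (2 * N) w) t
  · have h2 := (top_iff ψ hN ht w).mp h1
    have h3 : TopsIn (fun _ : Fin 1 => ψ) 0 0 0 t (Pool.Agent.H739K.lp (2 * N) w) :=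
      fun _ => ⟨t, Or.inr (Or.inl ⟨le_rfl, le_rfl⟩), h1⟩
    rw [if_pos h3, if_pos h1]
    exact if_pos (hM.mpr ⟨h2.2 0 (by omega), h2.2 _ le_rfl⟩)
  · rw [if_neg h1]
    by_cases h3 : TopsIn (fun _ : Fin 1 => ψ) 0 0 0 t (Pool.Agent.H739K.lp (2 * N) w)
    · rw [if_pos h3]
      refine if_neg fun hc => ?_
      obtain ⟨c1, c2⟩ := hM.mp hc
      apply h1
      rw [top_iff ψ hN ht w]
      obtain ⟨u, hu, hu2⟩ := h3 0
      have hu3 : u ≤ 2 * N - 1 := by rcases hu with hu | hu | hu <;> omega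
      have hu4 := ((top_iff ψ hN hu3 w).mp hu2).2
      refine ⟨ht, fun v hv => (hu4 v hv).trans ?_⟩
      rcases hu with hu | hu | hu
      · rw [show u = 0 by omega]
        exact c1
      · rw [show u = t by omega]
      · rw [show u = 2 * N - 1 by omega]
        exact c2
    · rw [if_neg h3]

/-- the sum of the probabilities -/
theorem sum_prob {α : Type} [LinearOrder α] {ρ : Option (ℤ × ℤ → α)} (hρ : Good ρ)
    (ψ : ℤ × ℤ → α) (hψ : Function.Injective ψ) {N s J : ℕ}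
    (hN : 2 ≤ N) (hs : s + 2 * J ≤ 2 * N - 1) :
    ∑ j ∈ Finset.range (J + 1), prob ρ N (fun f => IsTop ψ f (s + 2 * j)) ≤ 1 := by
  have hc := LW_pos hρ hN
  unfold prob
  simp only [mean_eq' ρ hN]
  rw [← Finset.sum_div, div_le_one hc, Finset.sum_comm]
  calc _ ≤ ∑ w ∈ LW ρ N, (1 : ℝ) := by
        refine Finset.sum_le_sum fun w hw => ?_
        have hw' := LW_sub hw
        rw [← Finset.sum_filter, Finset.sum_const, nsmul_eq_mul, mul_one]
        have h1 : ((Finset.range (J + 1)).filter (fun j =>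
            IsTop ψ (Pool.Agent.H739K.lp (2 * N) w) (s + 2 * j))).card ≤ 1 := by
          rw [Finset.card_le_one]
          intro i hi j hj
          rw [Finset.mem_filter, Finset.mem_range] at hi hj
          obtain ⟨hl, hsaw⟩ := mem_SW.mp hw'
          obtain ⟨hi0, hi3⟩ := hi
          obtain ⟨hj0, hj3⟩ := hj
          obtain ⟨hi1, hi2⟩ := (top_iff ψ hN (by omega) w).mp hi3
          obtain ⟨hj1, hj2⟩ := (top_iff ψ hN (by omega) w).mp hj3
          have e3 := hψ (le_antisymm (hi2 _ hj1) (hj2 _ hi1))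
          have := Lip.PP_inj hsaw (j := s + 2 * j) (k := s + 2 * i) (by omega) (by omega) e3
          omega
        exact_mod_cast h1
    _ = _ := by rw [Finset.sum_const, nsmul_eq_mul, mul_one]

/-- the differences for one ranking -/
theorem one (r : ℕ) (hr : 1 ≤ r) : ∃ C : ℝ, 0 < C ∧ ∀ (α : Type) (_ : LinearOrder α)
      (ρ : Option (ℤ × ℤ → α)), Good ρ →
      ∀ (ψ : ℤ × ℤ → α), Function.Injective ψ → ∀ (N t g : ℕ) (L : ℝ), 2 ≤ N → 0 ≤ L →
      Real.exp (-L) ≤ prob ρ N (fun f => IsTop ψ f t) → g ≤ t → t + g < 2 * N →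
      C * (Real.log N ^ 2 + L) ≤ g →
      (∀ i, i ≤ r → 0 < prob ρ N (fun f => IsTop ψ f (t + 2 * i))) ∧
      |df r (fun i => Real.log (prob ρ N (fun f => IsTop ψ f (t + 2 * i))))| ≤
        C * Real.sqrt ((Real.log N ^ 2 + L) / g) ^ r := by
  obtain ⟨C, hC, h⟩ := general 1 r hr
  refine ⟨C, hC, fun α _ ρ hρ ψ hψ N t g L hN hL hp hgt htn hg => ?_⟩
  have h3 := h α inferInstance ρ hρ (fun _ => ψ) (fun _ => hψ) N 0 0 0 t g
    (fun x => if Mid ψ x then 1 else 0) L hN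
    (fun x => by split_ifs <;> norm_num) hL (by rw [one_eq ρ ψ hN (by omega)]; exact hp)
    (by omega) (by omega) hg
  obtain ⟨h2, h4, h5⟩ := h3
  constructor
  · intro i hi
    have := h4 i hi
    rwa [one_eq ρ ψ hN (by omega)] at this
  · have e1 : df r (fun i => Real.log (prob ρ N (fun f => IsTop ψ f (t + 2 * i)))) =
        df r (fun i => Real.log (topMean (k := 1) ρ (fun _ => ψ) N 0 0 0 (t + 2 * i)
          (fun x => if Mid ψ x then 1 else 0))) := by
      unfold df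
      refine Finset.sum_congr rfl fun i hi => ?_
      rw [Finset.mem_range] at hi
      simp only
      rw [one_eq ρ ψ hN (by omega)]
    rw [e1]
    exact h5

/-- the bound for one ranking -/
theorem point : ∃ C : ℝ, 0 < C ∧ ∀ (α : Type) (_ : LinearOrder α)
    (ρ : Option (ℤ × ℤ → α)), Good ρ → ∀ (ψ : ℤ × ℤ → α),
    Function.Injective ψ → ∀ N t g : ℕ, 2 ≤ N → g ≤ t → t + g < 2 * N →
      C * Real.log N ^ 2 ≤ g →
      prob ρ N (fun f => IsTop ψ f t) ≤ C * (Real.log N / Real.sqrt g) := by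
  obtain ⟨C, hC, h⟩ := one 1 le_rfl
  obtain ⟨B, hB⟩ : ∃ B : ℝ, B = 6 * (C + 1) := ⟨_, rfl⟩
  refine ⟨100 * B, by rw [hB]; positivity, fun α _ ρ hρ ψ hψ N t g hN hgt htn hg => ?_⟩
  have hN' : (2 : ℝ) ≤ N := by exact_mod_cast hN
  obtain ⟨hlog0, -, -⟩ := log_le hN
  have hl2 : Real.log N ≤ 1.5 * Real.log N ^ 2 := by nlinarith
  have hlsq : 0.47 ≤ Real.log N ^ 2 := by nlinarith
  have hB1 : 6 ≤ B := by rw [hB]; linarith
  have hg1 : 47 * B ≤ (g : ℝ) := by
    have : 100 * B * 0.47 ≤ 100 * B * Real.log N ^ 2 :=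
      mul_le_mul_of_nonneg_left hlsq (by linarith)
    linarith
  have hg0 : (0 : ℝ) < g := by linarith
  have hsg : 0 < Real.sqrt g := Real.sqrt_pos.mpr hg0
  have hsg2 : Real.sqrt g ^ 2 = g := Real.sq_sqrt hg0.le
  have hgn : (g : ℝ) ≤ N := by
    have : g ≤ N := by omega
    exact_mod_cast this
  obtain ⟨σ, hσ⟩ : ∃ σ : ℝ, σ = Real.log N / Real.sqrt g := ⟨_, rfl⟩
  have hσ0 : 0 < σ := by rw [hσ]; positivity
  have hσg : σ ^ 2 * g = Real.log N ^ 2 := by rw [hσ, div_pow, hsg2]; field_simp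
  rw [← hσ]
  obtain ⟨P, hP⟩ : ∃ P : ℕ → ℝ, ∀ j, P j = prob ρ N (fun f => IsTop ψ f (t + 2 * j)) :=
    ⟨_, fun _ => rfl⟩
  have hP0 : P 0 = prob ρ N (fun f => IsTop ψ f t) := by rw [hP]; rfl
  rw [← hP0]
  have hP00 : 0 ≤ P 0 := by rw [hP0]; exact prob_nonneg _ hN _
  -- small probabilities
  by_cases hsm : P 0 < Real.exp (-Real.log N)
  · have h3 : Real.exp (-Real.log N) ≤ 2 * σ := by
      rw [Real.exp_neg, Real.exp_log (by linarith), hσ, ← mul_div_assoc, le_div_iff₀ hsg,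
        inv_mul_le_iff₀ (by linarith)]
      have h4 : Real.sqrt g ≤ N := by
        rw [Real.sqrt_le_left (by linarith)]
        nlinarith
      nlinarith
    have : 2 * σ ≤ 100 * B * σ := mul_le_mul_of_nonneg_right (by linarith) hσ0.le
    linarith
  push Not at hsm
  obtain ⟨δ, hδ⟩ : ∃ δ : ℝ, δ = B * σ := ⟨_, rfl⟩
  have hδ0 : 0 < δ := by rw [hδ]; positivity
  obtain ⟨J, hJ⟩ : ∃ J : ℕ, J = ⌊1 / δ⌋₊ := ⟨_, rfl⟩
  have hJ1 : (J : ℝ) ≤ 1 / δ := by rw [hJ]; exact Nat.floor_le (by positivity)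
  have hJ2 : 1 / δ < J + 1 := by rw [hJ]; exact Nat.lt_floor_add_one _
  have hJδ : (J : ℝ) * δ ≤ 1 := by
    rw [le_div_iff₀ hδ0] at hJ1
    exact hJ1
  have hJδ2 : 1 < ((J : ℝ) + 1) * δ := by
    rw [div_lt_iff₀ hδ0] at hJ2
    exact hJ2
  have hJg : 4 * J + 4 ≤ g := by
    have h3 : (J : ℝ) ≤ g / 8 := by
      refine hJ1.trans ?_
      rw [div_le_div_iff₀ hδ0 (by norm_num), hδ]
      have h5 : 2 ≤ σ * g := by
        have h6 : (2 : ℝ) ^ 2 ≤ (σ * g) ^ 2 := by
          have : (σ * g) ^ 2 = Real.log N ^ 2 * g := by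
            rw [← hσg]
            ring
          rw [this]
          have h7 : 0.47 * (47 * 6) ≤ Real.log N ^ 2 * g :=
            mul_le_mul hlsq (by linarith) (by norm_num) (by linarith)
          linarith
        exact (abs_le_of_sq_le_sq' h6 (by positivity)).2
      have h8 : 6 * 2 ≤ B * (σ * g) := mul_le_mul hB1 h5 (by norm_num) (by linarith)
      linarith
    have h7 : 4 * (J : ℝ) + 4 ≤ g := by linarith
    exact_mod_cast h7
  have hfin := spread P δ J hδ0 hJδ hJδ2 hP00 (fun j hj hPj => by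
      have hPj' : Real.exp (-(3 * Real.log N)) ≤ P j := by
        refine le_trans ?_ hPj
        calc Real.exp (-(3 * Real.log N)) ≤ Real.exp (-Real.log N + -1) := by
              apply Real.exp_le_exp.mpr
              linarith
          _ = Real.exp (-Real.log N) * Real.exp (-1) := Real.exp_add _ _
          _ ≤ _ := mul_le_mul_of_nonneg_right hsm (Real.exp_pos _).le
      obtain ⟨g', hg'⟩ : ∃ g' : ℕ, g' = g / 2 := ⟨_, rfl⟩
      have hg'1 : g < 2 * (g' + 1) := by omega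
      have hg'2 : (g : ℝ) < 2 * ((g' : ℝ) + 1) := by exact_mod_cast hg'1
      have hg'3 : (g : ℝ) ≤ 3 * g' := by linarith
      have hg'0 : (0 : ℝ) < g' := by linarith
      have h3 := h α inferInstance ρ hρ ψ hψ N (t + 2 * j) g' (3 * Real.log N) hN (by linarith)
        (by rw [← hP]; exact hPj') (by omega) (by omega) (by
          have h4 : C * (Real.log N ^ 2 + 3 * Real.log N) ≤ C * (5.5 * Real.log N ^ 2) :=
            mul_le_mul_of_nonneg_left (by linarith) hC.le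
          have h5 : 3 * (C * (5.5 * Real.log N ^ 2)) ≤ 100 * B * Real.log N ^ 2 := by
            rw [hB]
            have : 0 ≤ C * Real.log N ^ 2 := by positivity
            linarith
          linarith)
      obtain ⟨h4, h5⟩ := h3
      have h6 := h4 1 le_rfl
      have e1 : df 1 (fun i => Real.log (prob ρ N (fun f => IsTop ψ f (t + 2 * j + 2 * i)))) =
          Real.log (P j) - Real.log (P (j + 1)) := by
        unfold df
        rw [Finset.sum_range_succ, Finset.sum_range_one]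
        simp only [hP]
        have e2 : t + 2 * j + 2 * 1 = t + 2 * (j + 1) := by ring
        rw [e2]
        simp
        ring
      rw [e1, pow_one] at h5
      rw [mul_one, show t + 2 * j + 2 = t + 2 * (j + 1) by ring, ← hP] at h6
      have h7 : C * Real.sqrt ((Real.log N ^ 2 + 3 * Real.log N) / g') ≤ δ := by
        have h8 : Real.sqrt ((Real.log N ^ 2 + 3 * Real.log N) / g') ≤ 5 * σ := by
          rw [Real.sqrt_le_left (by positivity), div_le_iff₀ hg'0]
          have h9 : (5 * σ) ^ 2 * g' = 25 / 3 * (σ ^ 2 * (3 * g')) := by ring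
          have h10 : σ ^ 2 * g ≤ σ ^ 2 * (3 * g') := mul_le_mul_of_nonneg_left hg'3 (by positivity)
          rw [h9]
          rw [hσg] at h10
          linarith
        calc C * Real.sqrt ((Real.log N ^ 2 + 3 * Real.log N) / g') ≤ C * (5 * σ) := by gcongr
          _ ≤ δ := by
            rw [hδ, hB]
            have : 0 ≤ C * σ := by positivity
            linarith
      have h8 : Real.log (P j) - δ ≤ Real.log (P (j + 1)) := by
        have := (abs_le.mp h5).2
        linarith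
      have hPjpos : 0 < P j := lt_of_lt_of_le (Real.exp_pos _) hPj'
      rw [← Real.exp_log hPjpos, ← Real.exp_add, ← Real.exp_log h6]
      apply Real.exp_le_exp.mpr
      linarith) (by
      have := sum_prob hρ ψ hψ (N := N) (s := t) (J := J) hN (by omega)
      simp only [hP]
      exact this)
  calc P 0 ≤ 3 * δ := hfin
    _ = 3 * B * σ := by rw [hδ]; ring
    _ ≤ _ := mul_le_mul_of_nonneg_right (by linarith) hσ0.le

end Pool.Agent.U954.PG
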