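import Pool.Agent.U954.PG.Base

/-!
# Self-avoiding polygons with a root: differences in the arc length
-/

set_option autoImplicit false
set_option linter.unusedVariables false

namespace Pool.Agent.U954.PG

open Pool.Agent.H976R2 Pool.Agent.U954.TA
open scoped Classical

/-- from `engTop` to the polygons -/
theorem gen0 (k r : ℕ) (hr : 1 ≤ r) : ∃ C : ℝ, 0 < C ∧ ∀ (α : Type) (_ : LinearOrder α)
    (ρ : Option (ℤ × ℤ → α)), Good ρ →
    ∀ (φ : Fin k → ℤ × ℤ → α), (∀ i, Function.Injective (φ i)) →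
    ∀ (N a m b s g : ℕ) (Ψ : (ℕ → ℤ × ℤ) → (ℕ → ℤ × ℤ) → (ℕ → ℤ × ℤ) → ℝ) (L : ℝ) (M : ℕ → ℝ),
    2 ≤ N → (∀ x y z, 0 ≤ Ψ x y z ∧ Ψ x y z ≤ 1) → 0 ≤ L → Real.exp (-L) ≤ M 0 →
    (∀ i, i ≤ r → s + 2 * i + m ≤ 2 * N - 1 →
      M i = GG Set.univ φ a m b Ψ (2 * N - 1) (s + 2 * i) / ((Loops ρ N).ncard : ℝ)) →
    a + g ≤ s → s + m + g + b < 2 * N → C * (Real.log N ^ 2 + L) ≤ g →
    2 * r + 1 ≤ g ∧ (∀ i, i ≤ r → 0 < M i) ∧
    |df r (fun i => Real.log (M i))| ≤ C * Real.sqrt ((Real.log N ^ 2 + L) / g) ^ r := by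
  obtain ⟨C, hC, h⟩ := engTop k r hr
  obtain ⟨K, hK, hlow⟩ := low
  obtain ⟨κ, hκ⟩ : ∃ κ : ℝ, κ = K + 4 := ⟨_, rfl⟩
  have hκ1 : 1 ≤ κ := by rw [hκ]; linarith
  refine ⟨C * (4 + κ) + C * Real.sqrt κ ^ r + 5 * (r + 1), by positivity,
    fun α _ ρ hρ φ hφ N a m b s g Ψ L M hN hΨ hL hM0 hM has hsn hg => ?_⟩
  obtain ⟨l1, l2, l3⟩ := log_le hN
  obtain ⟨n, hn⟩ : ∃ n, n = 2 * N - 1 := ⟨_, rfl⟩
  rw [← hn] at l2 l3 hM
  have hlow' := hlow α inferInstance ρ hρ N hN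
  rw [← hn] at hlow'
  have hr0 : (0 : ℝ) ≤ r := Nat.cast_nonneg r
  have hlsq : 0.47 ≤ Real.log N ^ 2 := by nlinarith
  have hl4 : Real.log n ^ 2 ≤ 4 * Real.log N ^ 2 := by nlinarith
  have hl5 : Real.log n ≤ 4 * Real.log N ^ 2 := by nlinarith
  obtain ⟨y, hy⟩ : ∃ y : ℝ, y = Real.log N ^ 2 + L := ⟨_, rfl⟩
  rw [← hy] at hg ⊢
  have hy0 : 0.47 ≤ y := by rw [hy]; linarith
  have hly : Real.log N ^ 2 ≤ y := by rw [hy]; linarith
  have hCs : 0 ≤ C * Real.sqrt κ ^ r := by positivity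
  have hCκ : 0 ≤ C * (4 + κ) := by positivity
  have hgr : 2 * r + 1 ≤ g := by
    have h1 : 5 * ((r : ℝ) + 1) * 0.47 ≤ 5 * ((r : ℝ) + 1) * y :=
      mul_le_mul_of_nonneg_left hy0 (by positivity)
    have h2 : 5 * ((r : ℝ) + 1) * y ≤
        (C * (4 + κ) + C * Real.sqrt κ ^ r + 5 * (r + 1)) * y :=
      mul_le_mul_of_nonneg_right (by linarith) (by linarith)
    have h3 : 2 * (r : ℝ) + 1 ≤ g := by linarith
    exact_mod_cast h3
  have hκy : K * Real.log N ^ 2 ≤ κ * y := by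
    rw [hκ]
    nlinarith
  have h4y : 4 * Real.log N ^ 2 ≤ κ * y := by
    rw [hκ]
    nlinarith
  have h7 := h α inferInstance Set.univ φ hφ n a m b s g Ψ (κ * y) ((Loops ρ N).ncard : ℝ) M
    (by omega) hΨ (by linarith) (Loops_pos hρ hN)
    (hlow'.trans (mul_le_mul_of_nonneg_right (Real.exp_le_exp.mpr hκy) (Nat.cast_nonneg _)))
    (by
      refine le_trans (Real.exp_le_exp.mpr ?_) hM0
      have : 1 * y ≤ κ * y := mul_le_mul_of_nonneg_right hκ1 (by linarith)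
      have : 0 ≤ Real.log N ^ 2 := sq_nonneg _
      linarith)
    (fun i hi => hM i hi (by omega)) has (by omega)
    (by
      refine le_trans ?_ hg
      calc C * (Real.log n ^ 2 + κ * y) ≤ C * ((4 + κ) * y) := by
            refine mul_le_mul_of_nonneg_left ?_ hC.le
            have : 4 * Real.log N ^ 2 ≤ 4 * y := by linarith
            linarith
        _ = C * (4 + κ) * y := by ring
        _ ≤ _ := mul_le_mul_of_nonneg_right (by linarith) (by linarith))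
  refine ⟨hgr, h7.2.1, ?_⟩
  refine le_trans h7.2.2 ?_
  have e5 : Real.sqrt (κ * y / g) = Real.sqrt κ * Real.sqrt (y / g) := by
    rw [← Real.sqrt_mul (by linarith)]
    congr 1
    ring
  rw [e5, mul_pow, ← mul_assoc]
  refine mul_le_mul_of_nonneg_right ?_ (by positivity)
  linarith

/-- the piece of a loop -/
def arc {m : ℕ} (i l : ℕ) (f : ZMod m → ℤ × ℤ) : Fin (l + 1) → ℤ × ℤ :=
  fun j => f ((i + j : ℕ) : ZMod m)

/-- the three pieces -/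
def parts {N : ℕ} (a m b s : ℕ) (f : ZMod (2 * N) → ℤ × ℤ) :
    (Fin (a + 1) → ℤ × ℤ) × (Fin (m + 1) → ℤ × ℤ) × (Fin (b + 1) → ℤ × ℤ) :=
  (arc 0 a f, arc s m f, arc (2 * N - 1 - b) b f)

/-- the time is in the three pieces -/
def InParts (N a m b s t : ℕ) : Prop :=
  t ≤ a ∨ (s ≤ t ∧ t ≤ s + m) ∨ (2 * N - 1 - b ≤ t ∧ t ≤ 2 * N - 1)

/-- the highest sites are in the three pieces -/
def TopsIn {α : Type} [LinearOrder α] {k N : ℕ} (φ : Fin k → ℤ × ℤ → α) (a m b s : ℕ)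
    (f : ZMod (2 * N) → ℤ × ℤ) : Prop :=
  ∀ i, ∃ t, InParts N a m b s t ∧ IsTop (φ i) f t

/-- the mean over the loops -/
noncomputable def mean {α : Type} [LinearOrder α] (ρ : Option (ℤ × ℤ → α)) (N : ℕ)
    (F : (ZMod (2 * N) → ℤ × ℤ) → ℝ) : ℝ :=
  (∑ᶠ f ∈ Loops ρ N, F f) / ((Loops ρ N).ncard : ℝ)

/-- the mean over the event that the highest sites are in the pieces -/
noncomputable def topMean {α : Type} [LinearOrder α] {k : ℕ} (ρ : Option (ℤ × ℤ → α))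
    (φ : Fin k → ℤ × ℤ → α) (N a m b s : ℕ)
    (Φ : (Fin (a + 1) → ℤ × ℤ) × (Fin (m + 1) → ℤ × ℤ) × (Fin (b + 1) → ℤ × ℤ) → ℝ) : ℝ :=
  mean ρ N (fun f => if TopsIn φ a m b s f then Φ (parts a m b s f) else 0)

theorem mean_eq {α : Type} [LinearOrder α] (ρ : Option (ℤ × ℤ → α)) {N : ℕ} (hN : 2 ≤ N)
    (F : (ZMod (2 * N) → ℤ × ℤ) → ℝ) :
    mean ρ N F = (∑ w ∈ SW (2 * N - 1),
      if sq w = 1 ∧ ∀ φ, ρ = some φ → IsTop φ (Pool.Agent.H739K.lp (2 * N) w) 0 then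
        F (Pool.Agent.H739K.lp (2 * N) w) else 0) / ((Loops ρ N).ncard : ℝ) := by
  unfold mean
  rw [Loops_sum ρ hN]

/-- the function on sequences of positions -/
noncomputable def Ps {a m b : ℕ} (Q : (ℕ → ℤ × ℤ) → (ℕ → ℤ × ℤ) → (ℕ → ℤ × ℤ) → Prop)
    (Φ : (Fin (a + 1) → ℤ × ℤ) × (Fin (m + 1) → ℤ × ℤ) × (Fin (b + 1) → ℤ × ℤ) → ℝ)
    (x y u : ℕ → ℤ × ℤ) : ℝ :=
  if (((u b).1 : ℝ) ^ 2 + ((u b).2 : ℝ) ^ 2 = 1) ∧ Q x y u then
    Φ (fun j => x j, fun j => y j, fun j => u j) else 0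

theorem Ps_01 {a m b : ℕ} {Q : (ℕ → ℤ × ℤ) → (ℕ → ℤ × ℤ) → (ℕ → ℤ × ℤ) → Prop}
    {Φ : (Fin (a + 1) → ℤ × ℤ) × (Fin (m + 1) → ℤ × ℤ) × (Fin (b + 1) → ℤ × ℤ) → ℝ}
    (h : ∀ x, 0 ≤ Φ x ∧ Φ x ≤ 1) (x y u : ℕ → ℤ × ℤ) : 0 ≤ Ps Q Φ x y u ∧ Ps Q Φ x y u ≤ 1 := by
  unfold Ps
  split_ifs
  · exact h _
  · exact ⟨le_rfl, zero_le_one⟩

/-- the values of the weight -/
theorem ob_eq {N a m b s : ℕ} (hN : 2 ≤ N) (ha : a ≤ 2 * N - 1) (hs : s + m ≤ 2 * N - 1)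
    (hb : b ≤ 2 * N - 1) (Q : (ℕ → ℤ × ℤ) → (ℕ → ℤ × ℤ) → (ℕ → ℤ × ℤ) → Prop)
    (Φ : (Fin (a + 1) → ℤ × ℤ) × (Fin (m + 1) → ℤ × ℤ) × (Fin (b + 1) → ℤ × ℤ) → ℝ)
    {w : List Dir} (hw : w ∈ SW (2 * N - 1)) :
    obF a m b (Ps Q Φ) s w = if sq w = 1 ∧ Q (fun i => Lip.PP w (min i a))
      (fun i => Lip.PP w (s + min i m)) (fun i => Lip.PP w (2 * N - 1 - b + min i b)) then
      Φ (parts a m b s (Pool.Agent.H739K.lp (2 * N) w)) else 0 := by
  have hl : w.length = 2 * N - 1 := (mem_SW.1 hw).1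
  unfold obF Ps
  rw [hl]
  have e1 : Lip.PP w (2 * N - 1 - b + min b b) = (wX w, wY w) := by
    rw [min_self, show 2 * N - 1 - b + b = w.length by omega]
    exact Pool.Agent.N929.EZ.PP_len w
  simp only [e1]
  have e2 : Φ (fun j : Fin (a + 1) => Lip.PP w (min (j : ℕ) a),
      fun j : Fin (m + 1) => Lip.PP w (s + min (j : ℕ) m),
      fun j : Fin (b + 1) => Lip.PP w (2 * N - 1 - b + min (j : ℕ) b)) =
      Φ (parts a m b s (Pool.Agent.H739K.lp (2 * N) w)) := by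
    congr 1
    unfold parts arc
    refine Prod.ext ?_ (Prod.ext ?_ ?_)
    · funext j
      have hj := j.isLt
      simp only
      rw [lp_at w _ (by omega) hN, Nat.zero_add, min_eq_left (by omega)]
    · funext j
      have hj := j.isLt
      simp only
      rw [lp_at w _ (by omega) hN, min_eq_left (by omega)]
    · funext j
      have hj := j.isLt
      simp only
      rw [lp_at w _ (by omega) hN, min_eq_left (by omega)]
  rw [e2]
  rfl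

theorem ite_ite {A B C D : Prop} {_ : Decidable A} {_ : Decidable B} {_ : Decidable C}
    {_ : Decidable D} {x : ℝ}
    (h : (A ∧ B) ↔ (C ∧ D)) : (if A then (if B then x else 0) else 0) =
      if C then (if D then x else 0) else 0 := by
  by_cases hA : A <;> by_cases hB : B <;> by_cases hC : C <;> by_cases hD : D <;> simp_all

theorem inP_iff {N a m b s t : ℕ} : InP (2 * N - 1) a m b s t ↔ InParts N a m b s t := Iff.rfl

/-- the case of an arbitrary root -/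
theorem top_none {α : Type} [LinearOrder α] {k : ℕ} (φ : Fin k → ℤ × ℤ → α) {N a m b s : ℕ}
    (hN : 2 ≤ N) (ha : a ≤ 2 * N - 1) (hs : s + m ≤ 2 * N - 1) (hb : b ≤ 2 * N - 1)
    (Φ : (Fin (a + 1) → ℤ × ℤ) × (Fin (m + 1) → ℤ × ℤ) × (Fin (b + 1) → ℤ × ℤ) → ℝ) :
    topMean none φ N a m b s Φ =
      GG Set.univ φ a m b (Ps (fun _ _ _ => True) Φ) (2 * N - 1) s /
        ((Loops (none : Option (ℤ × ℤ → α)) N).ncard : ℝ) := by
  unfold topMean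
  rw [mean_eq _ hN]
  congr 1
  unfold GG
  refine Finset.sum_congr rfl fun w hw => ?_
  rw [ob_eq hN ha hs hb _ Φ hw]
  have hT : TopsIn φ a m b s (Pool.Agent.H739K.lp (2 * N) w) ↔
      Et Set.univ φ (2 * N - 1) a m b s w := by
    constructor
    · intro h
      refine ⟨fun t _ => Set.mem_univ _, fun i => ?_⟩
      obtain ⟨t, h1, h2⟩ := h i
      refine ⟨t, h1, (top_iff (φ i) hN ?_ w).mp h2⟩
      rcases h1 with h1 | h1 | h1 <;> omega
    · rintro ⟨-, h⟩ i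
      obtain ⟨t, h1, h2⟩ := h i
      exact ⟨t, h1, (top_iff (φ i) hN h2.1 w).mpr h2⟩
  refine ite_ite ?_
  rw [hT]
  constructor
  · rintro ⟨⟨h1, -⟩, h2⟩
    exact ⟨h2, h1, trivial⟩
  · rintro ⟨h2, h1, -⟩
    exact ⟨⟨h1, fun φ hφ => by cases hφ⟩, h2⟩

/-- the root is the highest site -/
def Rt {α : Type} [LinearOrder α] (φ : ℤ × ℤ → α) (x y u : ℕ → ℤ × ℤ) : Prop :=
  (∀ j, φ (x j) ≤ φ (x 0)) ∧ (∀ j, φ (y j) ≤ φ (x 0)) ∧ (∀ j, φ (u j) ≤ φ (x 0))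

/-- the case of the root at the highest site -/
theorem top_some {α : Type} [LinearOrder α] {k : ℕ} (φ₀ : ℤ × ℤ → α) (φ : Fin k → ℤ × ℤ → α)
    {N a m b s : ℕ}
    (hN : 2 ≤ N) (ha : a ≤ 2 * N - 1) (hs : s + m ≤ 2 * N - 1) (hb : b ≤ 2 * N - 1)
    (Φ : (Fin (a + 1) → ℤ × ℤ) × (Fin (m + 1) → ℤ × ℤ) × (Fin (b + 1) → ℤ × ℤ) → ℝ) :
    topMean (some φ₀) φ N a m b s Φ =
      GG Set.univ (Fin.cons φ₀ φ : Fin (k + 1) → ℤ × ℤ → α) a m b (Ps (Rt φ₀) Φ) (2 * N - 1) s /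
        ((Loops (some φ₀) N).ncard : ℝ) := by
  unfold topMean
  rw [mean_eq _ hN]
  congr 1
  unfold GG
  refine Finset.sum_congr rfl fun w hw => ?_
  rw [ob_eq hN ha hs hb _ Φ hw]
  have hT : (IsTop φ₀ (Pool.Agent.H739K.lp (2 * N) w) 0 ∧
      TopsIn φ a m b s (Pool.Agent.H739K.lp (2 * N) w)) ↔
      (Et Set.univ (Fin.cons φ₀ φ : Fin (k + 1) → ℤ × ℤ → α) (2 * N - 1) a m b s w ∧
        Rt φ₀ (fun i => Lip.PP w (min i a))
      (fun i => Lip.PP w (s + min i m)) (fun i => Lip.PP w (2 * N - 1 - b + min i b))) := by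
    constructor
    · rintro ⟨h1, h2⟩
      have h3 := (top_iff φ₀ hN (by omega) w).mp h1
      refine ⟨⟨fun t _ => Set.mem_univ _, fun i => ?_⟩, ?_, ?_, ?_⟩
      · refine Fin.cases ?_ (fun i => ?_) i
        · exact ⟨0, Or.inl (Nat.zero_le _), h3⟩
        · obtain ⟨t, h4, h5⟩ := h2 i
          refine ⟨t, h4, ?_⟩
          rw [Fin.cons_succ]
          refine (top_iff (φ i) hN ?_ w).mp h5
          rcases h4 with h4 | h4 | h4 <;> omega
      · intro j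
        simp only [Nat.zero_min]
        exact h3.2 _ (by omega)
      · intro j
        simp only [Nat.zero_min]
        exact h3.2 _ (by omega)
      · intro j
        simp only [Nat.zero_min]
        exact h3.2 _ (by omega)
    · rintro ⟨⟨-, h1⟩, h2, h3, h4⟩
      simp only [Nat.zero_min] at h2 h3 h4
      constructor
      · obtain ⟨t, h5, h6⟩ := h1 0
        rw [Fin.cons_zero] at h6
        rw [top_iff φ₀ hN (by omega) w]
        refine ⟨by omega, fun u hu => (h6.2 u hu).trans ?_⟩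
        rcases h5 with h5 | h5 | h5
        · have := h2 t
          rwa [min_eq_left h5] at this
        · have := h3 (t - s)
          rwa [min_eq_left (by omega), show s + (t - s) = t by omega] at this
        · have := h4 (t - (2 * N - 1 - b))
          rwa [min_eq_left (by omega), show 2 * N - 1 - b + (t - (2 * N - 1 - b)) = t by omega]
            at this
      · intro i
        obtain ⟨t, h5, h6⟩ := h1 i.succ
        rw [Fin.cons_succ] at h6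
        exact ⟨t, h5, (top_iff (φ i) hN h6.1 w).mpr h6⟩
  have hS : (∀ φ, some φ₀ = some φ → IsTop φ (Pool.Agent.H739K.lp (2 * N) w) 0) ↔
      IsTop φ₀ (Pool.Agent.H739K.lp (2 * N) w) 0 :=
    ⟨fun h => h φ₀ rfl, fun h φ hφ => by cases hφ; exact h⟩
  refine ite_ite ?_
  rw [hS]
  constructor
  · rintro ⟨⟨h1, h2⟩, h3⟩
    obtain ⟨h4, h5⟩ := hT.mp ⟨h2, h3⟩
    exact ⟨h4, h1, h5⟩
  · rintro ⟨h4, h1, h5⟩
    obtain ⟨h2, h3⟩ := hT.mpr ⟨h4, h5⟩
    exact ⟨⟨h1, h2⟩, h3⟩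

/-- the general result -/
theorem general (k r : ℕ) (hr : 1 ≤ r) : ∃ C : ℝ, 0 < C ∧ ∀ (α : Type) (_ : LinearOrder α)
    (ρ : Option (ℤ × ℤ → α)), Good ρ →
    ∀ (φ : Fin k → ℤ × ℤ → α), (∀ i, Function.Injective (φ i)) → ∀ (N a m b s g : ℕ)
    (Φ : (Fin (a + 1) → ℤ × ℤ) × (Fin (m + 1) → ℤ × ℤ) × (Fin (b + 1) → ℤ × ℤ) → ℝ) (L : ℝ),
    2 ≤ N → (∀ x, 0 ≤ Φ x ∧ Φ x ≤ 1) → 0 ≤ L →
    Real.exp (-L) ≤ topMean ρ φ N a m b s Φ →
    a + g ≤ s → s + m + g + b < 2 * N → C * (Real.log N ^ 2 + L) ≤ g →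
    2 * r + 1 ≤ g ∧ (∀ i, i ≤ r → 0 < topMean ρ φ N a m b (s + 2 * i) Φ) ∧
    |df r (fun i => Real.log (topMean ρ φ N a m b (s + 2 * i) Φ))| ≤
      C * Real.sqrt ((Real.log N ^ 2 + L) / g) ^ r := by
  obtain ⟨C, hC, h⟩ := gen0 k r hr
  obtain ⟨C', hC', h'⟩ := gen0 (k + 1) r hr
  refine ⟨C + C', by positivity,
    fun α _ ρ hρ φ hφ N a m b s g Φ L hN hΦ hL hm has hsn hg => ?_⟩
  have hy : 0 ≤ Real.log N ^ 2 + L := by positivity
  have h1 : C * (Real.log N ^ 2 + L) ≤ (C + C') * (Real.log N ^ 2 + L) :=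
    mul_le_mul_of_nonneg_right (by linarith) hy
  have h2 : C' * (Real.log N ^ 2 + L) ≤ (C + C') * (Real.log N ^ 2 + L) :=
    mul_le_mul_of_nonneg_right (by linarith) hy
  have h0 : (0 : ℝ) ≤ Real.sqrt ((Real.log N ^ 2 + L) / g) ^ r := by positivity
  rcases hc : ρ with _ | φ₀
  · rw [hc] at hm hρ
    obtain ⟨a1, a2, a3⟩ := h α inferInstance none hρ φ hφ N a m b s g (Ps (fun _ _ _ => True) Φ) L
      (fun i => topMean none φ N a m b (s + 2 * i) Φ) hN (Ps_01 hΦ) hL hm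
      (fun i hi h5 => top_none φ hN (by omega) (by omega) (by omega) Φ) has hsn (by linarith)
    refine ⟨a1, a2, a3.trans (mul_le_mul_of_nonneg_right (by linarith) h0)⟩
  · rw [hc] at hm hρ
    obtain ⟨a1, a2, a3⟩ := h' α inferInstance (some φ₀) hρ
      (Fin.cons φ₀ φ : Fin (k + 1) → ℤ × ℤ → α)
      (fun i => by
        refine Fin.cases ?_ (fun i => ?_) i
        · exact (hρ φ₀ rfl).1
        · rw [Fin.cons_succ]
          exact hφ i) N a m b s g (Ps (Rt φ₀) Φ) L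
      (fun i => topMean (some φ₀) φ N a m b (s + 2 * i) Φ) hN (Ps_01 hΦ) hL hm
      (fun i hi h5 => top_some φ₀ φ hN (by omega) (by omega) (by omega) Φ) has hsn (by linarith)
    refine ⟨a1, a2, a3.trans (mul_le_mul_of_nonneg_right (by linarith) h0)⟩

end Pool.Agent.U954.PG
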